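import Pool.Agent.RHO.Stmts3

/-!
# Row MG1: Magnus coefficients
-/

set_option autoImplicit false

namespace Pool.Agent.RHO.H92d

variable {D : ℕ}

theorem mgL_ne {i : Fin D} {m : List (Fin D) → ZMod 2} {j : Fin D} {y : List (Fin D)}
    (h : i ≠ j) : mgL i m (j :: y) = m (j :: y) := by
  simp [mgL, h.symm]

theorem mg_long : ∀ (W : List (Fin D)) (b : Bool) (y : List (Fin D)), y.IsChain (· ≠ ·) →
    W.length < y.length → mg b W y = 0 := by
  intro W
  induction W with
  | nil =>
    intro b y _ h
    have hy : y ≠ [] := by
      rintro rfl
      simp at h
    simp [mg, hy]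
  | cons i W ih =>
    intro b y hc h
    rcases y with _ | ⟨j, y⟩
    · simp at h
    have h' : W.length < y.length := by simpa using h
    have h'' : W.length < (j :: y).length := by simpa using Nat.lt_succ_of_lt h'
    have hc' : y.IsChain (· ≠ ·) := hc.tail
    cases b with
    | true =>
      have e1 := ih false (j :: y) hc h''
      have e2 := ih false y hc' h'
      simp [mg, mgP, e1, e2]
    | false =>
      have e1 := ih true (j :: y) hc h''
      by_cases hj : j = i
      · subst hj
        rcases y with _ | ⟨j', y'⟩
        · simp at h'
        · have hne : j ≠ j' := (List.isChain_cons_cons.1 hc).1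
          have e2 := ih true (j' :: y') hc' h'
          have e3 : mgL j (mg true W) (j' :: y') = 0 := by rw [mgL_ne hne, e2]
          simp only [mg]
          rw [mgL, e1, e3]
          simp
      · simp only [mg]
        rw [mgL_ne (fun h => hj h.symm), e1]

theorem mg_nil : ∀ (W : List (Fin D)) (b : Bool), mg b W [] = 1 := by
  intro W
  induction W with
  | nil => intro b; simp [mg]
  | cons i W ih =>
    intro b
    cases b with
    | true => simpa [mg, mgP] using ih false
    | false => simpa [mg, mgL] using ih true

theorem mg_self : ∀ (W : List (Fin D)) (b : Bool), W.IsChain (· ≠ ·) → mg b W W = 1 := by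
  intro W
  induction W with
  | nil => intro b _; simp [mg]
  | cons i W ih =>
    intro b hc
    have hc' : W.IsChain (· ≠ ·) := hc.tail
    cases b with
    | true =>
      have e1 := mg_long W false (i :: W) hc (by simp)
      have e2 := ih false hc'
      simp only [mg]
      rw [mgP, e1, e2]
      simp
    | false =>
      have e1 := mg_long W true (i :: W) hc (by simp)
      have e2 : mgL i (mg true W) W = 1 := by
        rcases W with _ | ⟨j, W'⟩
        · simp [mgL, mg]
        · rw [mgL_ne (List.isChain_cons_cons.1 hc).1]
          exact ih true hc'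
      simp only [mg]
      rw [mgL, e1, e2]
      simp

theorem mg1 : Pool.Agent.RHO.MG1Stmt := fun _ b W hW => ⟨mg_self W b hW, mg_nil W b⟩

end Pool.Agent.RHO.H92d
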