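import Pool.Agent.RHO.Stmts3

/-!
# Row TRL: a nonempty even set of edges contains a closed trail
-/

set_option autoImplicit false
set_option linter.unusedSectionVars false

namespace Pool.Agent.RHO.H92c

open Finset

variable {P : Type} [DecidableEq P] {D : ℕ} (s : Fin D → Equiv.Perm P)

/-- the contribution of an edge to the boundary -/
theorem term_lb (v : P ⊕ P) (i : Fin D) (x : P ⊕ P) :
    ((if ea (lb s v i) = x then (1 : ZMod 2) else 0) + (if eb s (lb s v i) = x then 1 else 0)) =
      (if x = v then 1 else 0) + (if x = ot s v i then 1 else 0) := by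
  have key : ∀ a b : P ⊕ P, ((if a = x then (1 : ZMod 2) else 0) + (if b = x then 1 else 0)) =
      (if x = a then 1 else 0) + (if x = b then 1 else 0) := by
    intro a b
    by_cases h1 : a = x
    · by_cases h2 : b = x
      · simp [h1, h2]
      · simp [h1, h2, Ne.symm h2]
    · by_cases h2 : b = x
      · simp [h1, h2, Ne.symm h1]
      · simp [h1, h2, Ne.symm h1, Ne.symm h2]
  rcases v with p | l
  · exact key _ _
  · have h : eb s (lb s (Sum.inr l) i) = Sum.inr l := by simp [lb, eb]
    rw [h, add_comm]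
    exact key _ _

theorem lb_ot (v : P ⊕ P) (i : Fin D) : lb s (ot s v i) i = lb s v i := by
  rcases v with p | l
  · simp [lb, ot]
  · simp [lb, ot]

theorem bdr_erase {Y : Finset (P × Fin D)} {v : P ⊕ P} {i : Fin D} (h : lb s v i ∈ Y)
    (x : P ⊕ P) : bdr ea (eb s) (Y.erase (lb s v i)) x =
      bdr ea (eb s) Y x + ((if x = v then 1 else 0) + (if x = ot s v i then 1 else 0)) := by
  unfold bdr
  rw [← term_lb, ← Finset.add_sum_erase Y _ h]
  generalize ((if ea (lb s v i) = x then (1 : ZMod 2) else 0) +
    (if eb s (lb s v i) = x then 1 else 0)) = a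
  generalize ∑ e ∈ Y.erase (lb s v i), ((if ea e = x then (1 : ZMod 2) else 0) +
    (if eb s e = x then 1 else 0)) = b
  rw [add_comm a b, add_assoc, CharTwo.add_self_eq_zero, add_zero]

theorem claim : ∀ (n : ℕ) (Y : Finset (P × Fin D)), Y.card = n → ∀ v w : P ⊕ P, v ≠ w →
    (∀ x, bdr ea (eb s) Y x = (if x = v then 1 else 0) + (if x = w then 1 else 0)) →
    ∃ (i : Fin D) (L : List (Fin D)), Wk s v w (i :: L) ∧ L.length + 1 ≤ Y.card ∧
      (i :: L).IsChain (· ≠ ·) ∧ lb s v i ∈ Y := by
  intro n
  induction n with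
  | zero =>
    intro Y hY v w hvw hb
    rw [Finset.card_eq_zero] at hY
    subst hY
    have := hb v
    simp [bdr, hvw] at this
  | succ n ih =>
    intro Y hY v w hvw hb
    have hv : bdr ea (eb s) Y v ≠ 0 := by
      rw [hb v]
      simp [hvw]
    obtain ⟨e, he, he'⟩ := Finset.exists_ne_zero_of_sum_ne_zero hv
    have hlb : lb s v e.2 = e := by
      by_cases h1 : ea e = v
      · rw [← h1]
        rfl
      · by_cases h2 : eb s e = v
        · rw [← h2]
          simp [lb, eb]
        · simp [h1, h2] at he'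
    have hmem : lb s v e.2 ∈ Y := by rw [hlb]; exact he
    by_cases hw : ot s v e.2 = w
    · refine ⟨e.2, [], ?_, ?_, List.isChain_singleton _, hmem⟩
      · refine Wk.cons v w e.2 [] ?_
        rw [hw]
        exact Wk.nil w
      · have : 0 < Y.card := Finset.card_pos.2 ⟨e, he⟩
        simpa using this
    · have hc : (Y.erase (lb s v e.2)).card = n := by
        rw [Finset.card_erase_of_mem hmem, hY]
        rfl
      obtain ⟨i', L', h1, h2, h3, h4⟩ := ih (Y.erase (lb s v e.2)) hc (ot s v e.2) w hw (by
        intro x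
        rw [bdr_erase s hmem, hb x]
        generalize (if x = v then (1 : ZMod 2) else 0) = a
        generalize (if x = w then (1 : ZMod 2) else 0) = b
        generalize (if x = ot s v e.2 then (1 : ZMod 2) else 0) = c
        have : a + b + (a + c) = (a + a) + (c + b) := by ring
        rw [this, CharTwo.add_self_eq_zero, zero_add])
      refine ⟨e.2, i' :: L', Wk.cons v w e.2 _ h1, ?_, ?_, hmem⟩
      · rw [List.length_cons]
        omega
      · refine List.isChain_cons_cons.2 ⟨?_, h3⟩
        rintro rfl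
        rw [lb_ot] at h4
        exact (Finset.notMem_erase _ _) h4

theorem trl : Pool.Agent.RHO.TRLStmt := by
  intro P _ D s Z hZ hb
  obtain ⟨e, he⟩ := Finset.nonempty_iff_ne_empty.2 hZ
  have he' : lb s (Sum.inl e.1) e.2 = e := rfl
  have hmem : lb s (Sum.inl e.1) e.2 ∈ Z := he
  obtain ⟨j, L, h1, h2, h3, h4⟩ := claim s _ (Z.erase (lb s (Sum.inl e.1) e.2)) rfl
    (ot s (Sum.inl e.1) e.2) (Sum.inl e.1) (by simp [ot]) (by
      intro x
      rw [bdr_erase s hmem, hb x, zero_add, add_comm])
  refine ⟨e.1, e.2 :: j :: L, by simp, ?_, ?_, Wk.cons _ _ _ _ h1⟩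
  · rw [Finset.card_erase_of_mem hmem] at h2
    have : 0 < Z.card := Finset.card_pos.2 ⟨e, he⟩
    simp only [List.length_cons]
    omega
  · refine List.isChain_cons_cons.2 ⟨?_, h3⟩
    intro hij
    rw [← hij, lb_ot] at h4
    exact (Finset.notMem_erase _ _) h4

end Pool.Agent.RHO.H92c
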